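import Pool.Agent.Q82.MD.Stm
import Pool.Agent.W779.Morrey.C1case

/-!
# Job MD-14: approximation of continuous maps by trigonometric polynomials
-/

set_option autoImplicit false

open MeasureTheory Set Filter Topology

namespace Q144.MD

open Pool.Agent.W779.Morrey
open Pool.Agent.Q82.MD

/-- the map seen as a matrix valued one -/
def gm (p : V → V) : V → E := fun y r _ => p y r

theorem continuous_gm {p : V → V} (hp : Continuous p) : Continuous (gm p) :=
  continuous_pi fun r => continuous_pi fun _ => (continuous_apply r).comp hp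

theorem conv_repr (n : ℕ) (p : V → V) (hp : Continuous p) :
    ∃ (ι : Type) (_ : Fintype ι) (k : ι → Fin 2 → ℤ) (A B : ι → V), ∀ x r,
      Tn n (gm p) x r 0 = ∑ i, (Real.cos (ph (k i) x) * A i r + Real.sin (ph (k i) x) * B i r) := by
  obtain ⟨ι, inst, k, γ, hk⟩ := cosSum_cc.pow n
  refine ⟨ι, inst, k,
    fun i r => (Zn n)⁻¹ * γ i * ∫ y in Icc (0 : V) 1, Real.cos (ph (k i) y) * p y r,
    fun i r => (Zn n)⁻¹ * γ i * ∫ y in Icc (0 : V) 1, Real.sin (ph (k i) y) * p y r,
    fun x r => ?_⟩
  have hg : Continuous (fun y => p y r) := (continuous_apply r).comp hp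
  have e4 : ∀ y, cc (x - y) ^ n * p y r
      = ∑ i, (γ i * Real.cos (ph (k i) x) * (Real.cos (ph (k i) y) * p y r)
        + γ i * Real.sin (ph (k i) x) * (Real.sin (ph (k i) y) * p y r)) := by
    intro y
    have hk' : cc (x - y) ^ n = ∑ i, γ i * Real.cos (ph (k i) (x - y)) := hk (x - y)
    rw [hk', Finset.sum_mul]
    refine Finset.sum_congr rfl fun i _ => ?_
    rw [ph_sub', Real.cos_sub]
    ring
  have c1 : ∀ i, Continuous (fun y => Real.cos (ph (k i) y) * p y r) := fun i =>
    (Real.continuous_cos.comp (continuous_ph (k i))).mul hg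
  have c2 : ∀ i, Continuous (fun y => Real.sin (ph (k i) y) * p y r) := fun i =>
    (Real.continuous_sin.comp (continuous_ph (k i))).mul hg
  have e5 : ∫ y in Icc (0 : V) 1, cc (x - y) ^ n * p y r
      = ∑ i, (γ i * Real.cos (ph (k i) x) * ∫ y in Icc (0 : V) 1, Real.cos (ph (k i) y) * p y r)
        + ∑ i, (γ i * Real.sin (ph (k i) x) *
          ∫ y in Icc (0 : V) 1, Real.sin (ph (k i) y) * p y r) := by
    simp only [e4]
    rw [integral_finsetSum]
    · rw [← Finset.sum_add_distrib]
      refine Finset.sum_congr rfl fun i _ => ?_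
      rw [integral_add, integral_const_mul, integral_const_mul]
      · exact (continuous_const.mul (c1 i)).integrableOn_Icc
      · exact (continuous_const.mul (c2 i)).integrableOn_Icc
    · intro i _
      exact ((continuous_const.mul (c1 i)).add (continuous_const.mul (c2 i))).integrableOn_Icc
  show (Zn n)⁻¹ * ∫ y in Icc (0 : V) 1, cc (x - y) ^ n * p y r = _
  rw [e5, mul_add, Finset.mul_sum, Finset.mul_sum, ← Finset.sum_add_distrib]
  refine Finset.sum_congr rfl fun i _ => ?_
  ring

/-- Approximation of continuous maps by trigonometric polynomials. -/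
theorem apx : S_APX := by
  intro p M hp hM
  refine ⟨fun n x r => Tn n (gm p) x r 0, ?_,
    fun n x i => Tn_bound n (continuous_gm hp) (fun y r _ => hM y r) x i 0, fun x hx => ?_⟩
  · intro n
    obtain ⟨ι, inst, k, A, B, hr⟩ := conv_repr n p hp
    classical
    refine ⟨{i : ι // k i ≠ 0}, inferInstance, fun i => k i, fun i => A i, fun i => B i,
      ∑ i : {i : ι // ¬ k i ≠ 0}, A i, fun i => i.2, fun x => ?_⟩
    ext r
    show Tn n (gm p) x r 0 = _
    rw [hr]
    rw [← Fintype.sum_subtype_add_sum_subtype (fun i => k i ≠ 0)]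
    rw [add_comm]
    simp only [FamG, tmG, one_pow, one_smul, Pi.add_apply, Finset.sum_apply, Pi.smul_apply,
      smul_eq_mul]
    congr 1
    refine Finset.sum_congr rfl fun i _ => ?_
    have h0 : k i = 0 := not_not.1 i.2
    have h1 : ph (k i) x = 0 := by
      rw [h0]
      simp [ph]
    rw [h1]
    simp
  · have h := Tn_tendsto (continuous_gm hp) hx
    rw [tendsto_pi_nhds]
    intro r
    have h1 := (tendsto_pi_nhds.1 h) r
    exact (tendsto_pi_nhds.1 h1) 0

end Q144.MD
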