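import Pool.Agent.Q82.MD.Stm
import Pool.Agent.Helper188.Morrey.Lip
import Pool.Agent.W779.Morrey.C1case

/-!
# Job MD-6: linear changes of the variables, local uniform limits
-/

set_option autoImplicit false

open MeasureTheory Set Filter Topology

namespace Q144.MD

open Pool.Agent.W779.Morrey
open Pool.Agent.Q82.MD

/-- the linear homeomorphism given by an invertible matrix -/
noncomputable def eqv (A : Matrix (Fin 2) (Fin 2) ℝ) (hA : A.det ≠ 0) :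
    (Fin 2 → ℝ) ≃L[ℝ] (Fin 2 → ℝ) :=
  (LinearEquiv.ofIsUnitDet (f := Matrix.toLin' A) (v := Pi.basisFun ℝ (Fin 2))
    (v' := Pi.basisFun ℝ (Fin 2)) (by
      rw [LinearMap.toMatrix_eq_toMatrix', LinearMap.toMatrix'_toLin']
      exact isUnit_iff_ne_zero.2 hA)).toContinuousLinearEquiv

theorem eqv_apply (A : Matrix (Fin 2) (Fin 2) ℝ) (hA : A.det ≠ 0) (x : Fin 2 → ℝ) :
    eqv A hA x = Matrix.toLin' A x := rfl

theorem eqv_coe (A : Matrix (Fin 2) (Fin 2) ℝ) (hA : A.det ≠ 0) :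
    (((eqv A hA : (Fin 2 → ℝ) →L[ℝ] (Fin 2 → ℝ)) : (Fin 2 → ℝ) →ₗ[ℝ] (Fin 2 → ℝ))) =
      Matrix.toLin' A := rfl

theorem toM_comp (f g : (Fin 2 → ℝ) →L[ℝ] (Fin 2 → ℝ)) :
    LinearMap.toMatrix' ((f.comp g : (Fin 2 → ℝ) →L[ℝ] (Fin 2 → ℝ)) :
      (Fin 2 → ℝ) →ₗ[ℝ] (Fin 2 → ℝ)) =
    LinearMap.toMatrix' (f : (Fin 2 → ℝ) →ₗ[ℝ] (Fin 2 → ℝ)) *
      LinearMap.toMatrix' (g : (Fin 2 → ℝ) →ₗ[ℝ] (Fin 2 → ℝ)) := by
  rw [← LinearMap.toMatrix'_comp]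
  rfl

theorem map_vol (A : Matrix (Fin 2) (Fin 2) ℝ) (hA : A.det ≠ 0) :
    Measure.map (eqv A hA) (volume : Measure (Fin 2 → ℝ)) =
      ENNReal.ofReal |A.det⁻¹| • (volume : Measure (Fin 2 → ℝ)) := by
  have h := Real.map_linearMap_volume_pi_eq_smul_volume_pi (f := Matrix.toLin' A)
    (by rwa [LinearMap.det_toLin'])
  rw [LinearMap.det_toLin'] at h
  exact h

theorem vol_pre (A : Matrix (Fin 2) (Fin 2) ℝ) (hA : A.det ≠ 0) (Ω : Set (Fin 2 → ℝ))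
    (hΩ : IsOpen Ω) : (volume (eqv A hA ⁻¹' Ω)).toReal = |A.det⁻¹| * (volume Ω).toReal := by
  rw [← Measure.map_apply (eqv A hA).continuous.measurable hΩ.measurableSet, map_vol,
    Measure.smul_apply, smul_eq_mul, ENNReal.toReal_mul, ENNReal.toReal_ofReal (abs_nonneg _)]

theorem int_pre (A : Matrix (Fin 2) (Fin 2) ℝ) (hA : A.det ≠ 0) (Ω : Set (Fin 2 → ℝ))
    (G : (Fin 2 → ℝ) → ℝ) :
    ∫ x in eqv A hA ⁻¹' Ω, G (eqv A hA x) = |A.det⁻¹| * ∫ x in Ω, G x := by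
  have h := (eqv A hA).toHomeomorph.measurableEmbedding.setIntegral_map
    (μ := (volume : Measure (Fin 2 → ℝ))) G Ω
  have h2 : ∫ x in eqv A hA ⁻¹' Ω, G (eqv A hA x) =
      ∫ y in Ω, G y ∂(Measure.map (eqv A hA) (volume : Measure (Fin 2 → ℝ))) := h.symm
  rw [h2, map_vol, Measure.restrict_smul, integral_smul_measure,
    ENNReal.toReal_ofReal (abs_nonneg _), smul_eq_mul]

/-- Linear changes of the independent variables. -/
theorem lc : S_LC := by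
  intro W R hR hW F₀ Ω hΩ hb ϑ hK h0
  obtain ⟨K, hK⟩ := hK
  have hA : (R⁻¹).det ≠ 0 := by
    rw [Matrix.det_nonsing_inv, Ring.inverse_eq_inv']
    exact inv_ne_zero hR
  have hunit : IsUnit R.det := isUnit_iff_ne_zero.2 hR
  set e := eqv R⁻¹ hA with he
  have hpos : 0 < |(R⁻¹).det⁻¹| := abs_pos.2 (inv_ne_zero hA)
  have h1 := hW (F₀ * R⁻¹) (e ⁻¹' Ω) (hΩ.preimage e.continuous)
    (by
      have h2 : e ⁻¹' Ω = e.symm '' Ω := (e.symm.toEquiv.image_eq_preimage_symm Ω).symm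
      rw [h2]
      exact (e.symm : (Fin 2 → ℝ) →L[ℝ] (Fin 2 → ℝ)).lipschitz.isBounded_image hb)
    (fun y => ϑ (e y))
    ⟨_, hK.comp (e : (Fin 2 → ℝ) →L[ℝ] (Fin 2 → ℝ)).lipschitz⟩
    (fun x hx => h0 _ hx)
  have h3 : ∀ y, fderiv ℝ (fun y => ϑ (e y)) y =
      (fderiv ℝ ϑ (e y)).comp (e : (Fin 2 → ℝ) →L[ℝ] (Fin 2 → ℝ)) := by
    intro y
    exact e.comp_right_fderiv
  have h4 : ∀ y, W ((F₀ * R⁻¹ + LinearMap.toMatrix'
      ((fderiv ℝ (fun y => ϑ (e y)) y : (Fin 2 → ℝ) →L[ℝ] (Fin 2 → ℝ)) :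
        (Fin 2 → ℝ) →ₗ[ℝ] (Fin 2 → ℝ))) * R) =
      W (F₀ + LinearMap.toMatrix' ((fderiv ℝ ϑ (e y) : (Fin 2 → ℝ) →L[ℝ] (Fin 2 → ℝ)) :
        (Fin 2 → ℝ) →ₗ[ℝ] (Fin 2 → ℝ))) := by
    intro y
    rw [h3, toM_comp, he, eqv_coe, LinearMap.toMatrix'_toLin', ← Matrix.add_mul,
      Matrix.mul_assoc, Matrix.nonsing_inv_mul R hunit, Matrix.mul_one]
  simp only [h4] at h1
  rw [Matrix.mul_assoc, Matrix.nonsing_inv_mul R hunit, Matrix.mul_one, he, vol_pre R⁻¹ hA Ω hΩ,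
    int_pre R⁻¹ hA Ω (fun x => W (F₀ + LinearMap.toMatrix'
      ((fderiv ℝ ϑ x : (Fin 2 → ℝ) →L[ℝ] (Fin 2 → ℝ)) :
        (Fin 2 → ℝ) →ₗ[ℝ] (Fin 2 → ℝ))))] at h1
  refine le_of_mul_le_mul_left ?_ hpos
  linarith

/-- Linear changes of the dependent variables. -/
theorem tc : S_TC := by
  intro W R hR hW F₀ Ω hΩ hb ϑ hK h0
  obtain ⟨K, hK⟩ := hK
  have hA : (R⁻¹).det ≠ 0 := by
    rw [Matrix.det_nonsing_inv, Ring.inverse_eq_inv']
    exact inv_ne_zero hR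
  have hunit : IsUnit R.det := isUnit_iff_ne_zero.2 hR
  set e := eqv R⁻¹ hA with he
  have h1 := hW (R⁻¹ * F₀) Ω hΩ hb (fun y => e (ϑ y))
    ⟨_, (e : (Fin 2 → ℝ) →L[ℝ] (Fin 2 → ℝ)).lipschitz.comp hK⟩
    (fun x hx => by rw [h0 x hx, map_zero])
  have h3 : ∀ y, fderiv ℝ (fun y => e (ϑ y)) y =
      (e : (Fin 2 → ℝ) →L[ℝ] (Fin 2 → ℝ)).comp (fderiv ℝ ϑ y) := by
    intro y
    exact e.comp_fderiv
  have h4 : ∀ y, W (R * (R⁻¹ * F₀ + LinearMap.toMatrix'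
      ((fderiv ℝ (fun y => e (ϑ y)) y : (Fin 2 → ℝ) →L[ℝ] (Fin 2 → ℝ)) :
        (Fin 2 → ℝ) →ₗ[ℝ] (Fin 2 → ℝ)))) =
      W (F₀ + LinearMap.toMatrix' ((fderiv ℝ ϑ y : (Fin 2 → ℝ) →L[ℝ] (Fin 2 → ℝ)) :
        (Fin 2 → ℝ) →ₗ[ℝ] (Fin 2 → ℝ))) := by
    intro y
    rw [h3, toM_comp, he, eqv_coe, LinearMap.toMatrix'_toLin', ← Matrix.mul_add,
      ← Matrix.mul_assoc, Matrix.mul_nonsing_inv R hunit, Matrix.one_mul]
  simp only [h4] at h1
  rw [← Matrix.mul_assoc, Matrix.mul_nonsing_inv R hunit, Matrix.one_mul] at h1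
  exact h1

/-- A continuous function of the gradient of a Lipschitz map is integrable. -/
theorem int_grad {W : Matrix (Fin 2) (Fin 2) ℝ → ℝ} (hW : Continuous W)
    (F₀ : Matrix (Fin 2) (Fin 2) ℝ) {Ω : Set (Fin 2 → ℝ)} (hb : Bornology.IsBounded Ω)
    {ϑ : (Fin 2 → ℝ) → (Fin 2 → ℝ)} {K : NNReal} (hK : LipschitzWith K ϑ) :
    IntegrableOn (fun x => W (F₀ + Pool.Agent.Helper188.Morrey.grad ϑ x)) Ω := by
  obtain ⟨C, hC⟩ := W_bound (W := W) hW F₀ (K : ℝ)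
  have hm : Measurable (fun x => (fun i j => F₀ i j + Pool.Agent.Helper188.Morrey.grad ϑ x i j : E)) := by
    refine measurable_pi_lambda _ fun i => measurable_pi_lambda _ fun j => ?_
    exact (Pool.Agent.Helper188.Morrey.measurable_grad i j).const_add _
  have hmeas : Measurable (fun x => W (F₀ + Pool.Agent.Helper188.Morrey.grad ϑ x)) := by
    have hW' : Continuous (fun F : E => W F) := hW
    exact hW'.measurable.comp hm
  have : IsFiniteMeasure (volume.restrict Ω) :=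
    ⟨by rw [Measure.restrict_apply_univ]; exact hb.measure_lt_top⟩
  refine Integrable.of_bound hmeas.aestronglyMeasurable C (Eventually.of_forall fun x => ?_)
  exact hC _ fun r l => Pool.Agent.Helper188.Morrey.grad_bound hK x r l

/-- Local uniform limits. -/
theorem limq : S_LIMQ := by
  intro W hWc h F₀ Ω hΩ hb ϑ hK h0
  obtain ⟨K, hK⟩ := hK
  have hint : ∀ W' : Matrix (Fin 2) (Fin 2) ℝ → ℝ, Continuous W' →
      IntegrableOn (fun x => W' (F₀ + LinearMap.toMatrix'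
        ((fderiv ℝ ϑ x : (Fin 2 → ℝ) →L[ℝ] (Fin 2 → ℝ)) :
          (Fin 2 → ℝ) →ₗ[ℝ] (Fin 2 → ℝ)))) Ω := fun W' hW' => int_grad hW' F₀ hb hK
  set v := (volume Ω).toReal with hv
  have hv0 : 0 ≤ v := ENNReal.toReal_nonneg
  have hfin : volume Ω ≠ ⊤ := hb.measure_lt_top.ne
  set I := ∫ x in Ω, W (F₀ + LinearMap.toMatrix'
        ((fderiv ℝ ϑ x : (Fin 2 → ℝ) →L[ℝ] (Fin 2 → ℝ)) :
          (Fin 2 → ℝ) →ₗ[ℝ] (Fin 2 → ℝ))) with hI
  -- a bound for the matrices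
  obtain ⟨R, hR0, hR⟩ : ∃ R : ℝ, 0 < R ∧ ∀ i j, |F₀ i j| + K ≤ R := by
    refine ⟨∑ i, ∑ j, |F₀ i j| + K + 1, ?_, fun i j => ?_⟩
    · have : 0 ≤ ∑ i, ∑ j, |F₀ i j| := Finset.sum_nonneg fun i _ =>
        Finset.sum_nonneg fun j _ => abs_nonneg _
      have := K.2
      have hK' : (0 : ℝ) ≤ (K : ℝ) := K.2
      linarith
    · have h1 : |F₀ i j| ≤ ∑ j, |F₀ i j| :=
        Finset.single_le_sum (f := fun j => |F₀ i j|) (fun _ _ => abs_nonneg _) (Finset.mem_univ j)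
      have h2 : ∑ j, |F₀ i j| ≤ ∑ i, ∑ j, |F₀ i j| :=
        Finset.single_le_sum (f := fun i => ∑ j, |F₀ i j|)
          (fun _ _ => Finset.sum_nonneg fun _ _ => abs_nonneg _) (Finset.mem_univ i)
      linarith
  have key : ∀ ε : ℝ, 0 < ε → W F₀ * v ≤ I + 2 * ε * v := by
    intro ε hε
    obtain ⟨W', hW'c, hW'q, hW'⟩ := h R ε hR0 hε
    have h1 := hW'q F₀ Ω hΩ hb ϑ ⟨K, hK⟩ h0
    have h2 : W F₀ ≤ W' F₀ + ε := by
      have h3 := hW' F₀ (fun i j => by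
        have := hR i j
        have hK' : (0 : ℝ) ≤ (K : ℝ) := K.2
        linarith)
      have := (abs_le.1 h3).2
      linarith
    have h3 : ∫ x in Ω, W' (F₀ + LinearMap.toMatrix'
        ((fderiv ℝ ϑ x : (Fin 2 → ℝ) →L[ℝ] (Fin 2 → ℝ)) :
          (Fin 2 → ℝ) →ₗ[ℝ] (Fin 2 → ℝ))) ≤ I + ε * v := by
      have h4 : ∫ x in Ω, (W (F₀ + LinearMap.toMatrix'
        ((fderiv ℝ ϑ x : (Fin 2 → ℝ) →L[ℝ] (Fin 2 → ℝ)) :
          (Fin 2 → ℝ) →ₗ[ℝ] (Fin 2 → ℝ))) + ε) = I + ε * v := by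
        rw [integral_add (hint W hWc) (integrableOn_const hfin), ← hI, setIntegral_const,
          smul_eq_mul]
        rw [hv]
        simp only [Measure.real]
        ring
      rw [← h4]
      refine integral_mono (hint W' hW'c) ((hint W hWc).add (integrableOn_const hfin)) fun x => ?_
      have h5 := hW' (F₀ + LinearMap.toMatrix'
        ((fderiv ℝ ϑ x : (Fin 2 → ℝ) →L[ℝ] (Fin 2 → ℝ)) :
          (Fin 2 → ℝ) →ₗ[ℝ] (Fin 2 → ℝ))) (fun i j => by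
            have h6 := Pool.Agent.Helper188.Morrey.grad_bound hK x i j
            have h7 := hR i j
            have h8 : |(F₀ + LinearMap.toMatrix'
              ((fderiv ℝ ϑ x : (Fin 2 → ℝ) →L[ℝ] (Fin 2 → ℝ)) :
              (Fin 2 → ℝ) →ₗ[ℝ] (Fin 2 → ℝ))) i j| ≤ |F₀ i j| + |Pool.Agent.Helper188.Morrey.grad ϑ x i j| :=
              abs_add_le _ _
            linarith)
      have := (abs_le.1 h5).1
      show W' _ ≤ W _ + ε
      linarith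
    nlinarith
  by_contra hcon
  push Not at hcon
  rcases hv0.eq_or_lt with hv1 | hv1
  · have := key 1 one_pos
    rw [← hv1] at this hcon
    linarith
  · have h5 := key ((W F₀ * v - I) / (4 * v)) (by
      apply div_pos
      · linarith
      · linarith)
    have h6 : 2 * ((W F₀ * v - I) / (4 * v)) * v = (W F₀ * v - I) / 2 := by
      field_simp
      ring
    rw [h6] at h5
    linarith

end Q144.MD
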