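import Pool.Agent.Q82.MD.Stm

/-!
# Job MD-17: normal form of linear maps without rank-one matrices in the kernel
-/

set_option autoImplicit false

open MeasureTheory Set Filter Topology

namespace Q144.MD

open Pool.Agent.W779.Morrey
open Pool.Agent.Q82.MD

/-- the unit matrices -/
def um (r l : Fin 2) : E := fun i j => if i = r ∧ j = l then 1 else 0

theorem expand (L : E →L[ℝ] V) (F : E) : L F = F 0 0 • L (um 0 0) + F 0 1 • L (um 0 1) +
    F 1 0 • L (um 1 0) + F 1 1 • L (um 1 1) := by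
  rw [← map_smul, ← map_smul, ← map_smul, ← map_smul, ← map_add, ← map_add, ← map_add]
  congr 1
  ext i j
  fin_cases i <;> fin_cases j <;> simp [um]

theorem det_ne (L : E →L[ℝ] V) (hL : ∀ z ξ : V, L (tens z ξ) = 0 → z = 0 ∨ ξ = 0) (ξ : V)
    (hξ : ξ ≠ 0) :
    (ξ 0 * L (um 0 0) 0 + ξ 1 * L (um 0 1) 0) * (ξ 0 * L (um 1 0) 1 + ξ 1 * L (um 1 1) 1) -
      (ξ 0 * L (um 1 0) 0 + ξ 1 * L (um 1 1) 0) * (ξ 0 * L (um 0 0) 1 + ξ 1 * L (um 0 1) 1) ≠ 0 := by
  intro h0
  let M : Matrix (Fin 2) (Fin 2) ℝ :=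
    !![ξ 0 * L (um 0 0) 0 + ξ 1 * L (um 0 1) 0, ξ 0 * L (um 1 0) 0 + ξ 1 * L (um 1 1) 0;
      ξ 0 * L (um 0 0) 1 + ξ 1 * L (um 0 1) 1, ξ 0 * L (um 1 0) 1 + ξ 1 * L (um 1 1) 1]
  have hM : M.det = 0 := by
    rw [Matrix.det_fin_two]
    simpa [M] using h0
  obtain ⟨z, hz, hMz⟩ := Matrix.exists_mulVec_eq_zero_iff.2 hM
  have h1 : L (tens z ξ) = 0 := by
    rw [expand L (tens z ξ)]
    have h2 := congrFun hMz 0
    have h3 := congrFun hMz 1
    simp only [M, Matrix.mulVec, dotProduct, Fin.sum_univ_two, Matrix.of_apply, Matrix.cons_val',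
      Matrix.cons_val_zero, Matrix.cons_val_one, Pi.zero_apply, Matrix.cons_val_fin_one] at h2 h3
    ext r
    fin_cases r
    · simp only [tens, Pi.add_apply, Pi.smul_apply, smul_eq_mul, Pi.zero_apply, Fin.zero_eta]
      linarith
    · simp only [tens, Pi.add_apply, Pi.smul_apply, smul_eq_mul, Pi.zero_apply, Fin.mk_one]
      linarith
  rcases hL z ξ h1 with h | h
  · exact hz h
  · exact hξ h

/-- the algebraic core -/
theorem core (a b c d e f g h : ℝ) (hD : a * d - b * c ≠ 0)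
    (hx : ∀ x : ℝ, (x * a + e) * (x * d + h) - (x * b + f) * (x * c + g) ≠ 0) :
    ∃ α β p q r : ℝ, β ≠ 0 ∧ q ≠ 0 ∧ p ^ 2 + q * r = -1 ∧
      e = a * (α + β * p) + b * (β * r) ∧ f = a * (β * q) + b * (α - β * p) ∧
      g = c * (α + β * p) + d * (β * r) ∧ h = c * (β * q) + d * (α - β * p) := by
  set D := a * d - b * c with hDdef
  set n11 := (d * e - b * g) / D with h11
  set n12 := (d * f - b * h) / D with h12
  set n21 := (a * g - c * e) / D with h21
  set n22 := (a * h - c * f) / D with h22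
  have e1 : e = a * n11 + b * n21 := by
    rw [h11, h21]
    field_simp
    rw [hDdef]
    ring
  have e2 : f = a * n12 + b * n22 := by
    rw [h12, h22]
    field_simp
    rw [hDdef]
    ring
  have e3 : g = c * n11 + d * n21 := by
    rw [h11, h21]
    field_simp
    rw [hDdef]
    ring
  have e4 : h = c * n12 + d * n22 := by
    rw [h12, h22]
    field_simp
    rw [hDdef]
    ring
  clear_value n11 n12 n21 n22
  subst e1 e2 e3 e4
  have hx' : ∀ x : ℝ, (x + n11) * (x + n22) - n12 * n21 ≠ 0 := by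
    intro x h0
    apply hx x
    have : (x * a + (a * n11 + b * n21)) * (x * d + (c * n12 + d * n22)) -
        (x * b + (a * n12 + b * n22)) * (x * c + (c * n11 + d * n21)) =
        D * ((x + n11) * (x + n22) - n12 * n21) := by
      rw [hDdef]
      ring
    rw [this, h0, mul_zero]
  have hdisc : 0 < -((n11 - n22) ^ 2 / 4 + n12 * n21) := by
    by_contra hneg
    push Not at hneg
    have h0 : 0 ≤ (n11 - n22) ^ 2 / 4 + n12 * n21 := by linarith
    set s := Real.sqrt ((n11 - n22) ^ 2 / 4 + n12 * n21) with hs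
    have hs2 : s ^ 2 = (n11 - n22) ^ 2 / 4 + n12 * n21 := Real.sq_sqrt h0
    apply hx' (-(n11 + n22) / 2 + s)
    have : (-(n11 + n22) / 2 + s + n11) * (-(n11 + n22) / 2 + s + n22) - n12 * n21 =
        s ^ 2 - ((n11 - n22) ^ 2 / 4 + n12 * n21) := by ring
    rw [this, hs2, sub_self]
  set β := Real.sqrt (-((n11 - n22) ^ 2 / 4 + n12 * n21)) with hβ
  have hβpos : 0 < β := Real.sqrt_pos.2 hdisc
  have hβ2 : β ^ 2 = -((n11 - n22) ^ 2 / 4 + n12 * n21) := Real.sq_sqrt hdisc.le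
  have hβ0 : β ≠ 0 := hβpos.ne'
  refine ⟨(n11 + n22) / 2, β, (n11 - n22) / 2 / β, n12 / β, n21 / β, hβ0, ?_, ?_, ?_, ?_, ?_, ?_⟩
  · intro h0
    have h1 : n12 = 0 := by
      rcases div_eq_zero_iff.1 h0 with h | h
      · exact h
      · exact absurd h hβ0
    rw [h1] at hdisc
    nlinarith [sq_nonneg (n11 - n22)]
  · have : ((n11 - n22) / 2 / β) ^ 2 + n12 / β * (n21 / β) =
        ((n11 - n22) ^ 2 / 4 + n12 * n21) / β ^ 2 := by
      field_simp
      ring
    rw [this, hβ2]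
    have h0 : (n11 - n22) ^ 2 / 4 + n12 * n21 ≠ 0 := by
      intro h
      rw [h] at hdisc
      simp at hdisc
    rw [div_neg, div_self h0]
  · field_simp
    ring
  · field_simp
    ring
  · field_simp
    ring
  · field_simp
    ring

/-- The normal form. -/
theorem nf : S_NF := by
  intro L hL
  have hD : L (um 0 0) 0 * L (um 1 0) 1 - L (um 1 0) 0 * L (um 0 0) 1 ≠ 0 := by
    have h := det_ne L hL ![1, 0] (by
      intro h
      have := congrFun h 0
      simp at this)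
    simpa using h
  have hx : ∀ x : ℝ, (x * L (um 0 0) 0 + L (um 0 1) 0) * (x * L (um 1 0) 1 + L (um 1 1) 1) -
      (x * L (um 1 0) 0 + L (um 1 1) 0) * (x * L (um 0 0) 1 + L (um 0 1) 1) ≠ 0 := by
    intro x
    have h := det_ne L hL ![x, 1] (by
      intro h
      have := congrFun h 1
      simp at this)
    simpa using h
  obtain ⟨α, β, p, q, r, hβ, hq, hpq, h1, h2, h3, h4⟩ := core _ _ _ _ _ _ _ _ hD hx
  set a := L (um 0 0) 0 with ha
  set b := L (um 1 0) 0 with hb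
  set c := L (um 0 0) 1 with hc
  set d := L (um 1 0) 1 with hd
  have hr : r = (-1 - p ^ 2) / q := by
    field_simp
    linarith
  refine ⟨!![1, 0; -p, -q], !![1, 0; α, -β],
    Matrix.toLin' !![a - b * p / q, -b / q; c - d * p / q, -d / q] |>.toContinuousLinearMap,
    ?_, ?_, fun F => ?_⟩
  · rw [Matrix.det_fin_two]
    simpa using hq
  · rw [Matrix.det_fin_two]
    simpa using hβ
  · rw [expand L F]
    have hT : ∀ v : V, (Matrix.toLin' !![a - b * p / q, -b / q; c - d * p / q, -d / q]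
        |>.toContinuousLinearMap) v = ![(a - b * p / q) * v 0 + (-b / q) * v 1,
          (c - d * p / q) * v 0 + (-d / q) * v 1] := by
      intro v
      ext i
      fin_cases i <;> simp [Matrix.toLin'_apply, Matrix.mulVec, dotProduct, Fin.sum_univ_two]
    rw [hT]
    ext i
    fin_cases i
    · simp only [Pi.add_apply, Pi.smul_apply, smul_eq_mul, Fin.zero_eta, Matrix.cons_val_zero]
      rw [← ha, ← hb, h1, h2, hr]
      simp only [cf, Matrix.mul_apply, Fin.sum_univ_two, Matrix.of_apply, Matrix.cons_val',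
        Matrix.cons_val_zero, Matrix.cons_val_one, Matrix.cons_val_fin_one]
      field_simp
      ring
    · simp only [Pi.add_apply, Pi.smul_apply, smul_eq_mul, Fin.mk_one, Matrix.cons_val_one,
        Matrix.cons_val_fin_one]
      rw [← hc, ← hd, h3, h4, hr]
      simp only [cf, Matrix.mul_apply, Fin.sum_univ_two, Matrix.of_apply, Matrix.cons_val',
        Matrix.cons_val_zero, Matrix.cons_val_one, Matrix.cons_val_fin_one]
      field_simp
      ring

/-- multiplication of matrices by fixed matrices -/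
noncomputable def sm (S R : Matrix (Fin 2) (Fin 2) ℝ) (F : Matrix (Fin 2) (Fin 2) ℝ) :
    Matrix (Fin 2) (Fin 2) ℝ := S * F * R

theorem sm_add (S R F G : Matrix (Fin 2) (Fin 2) ℝ) : sm S R (F + G) = sm S R F + sm S R G := by
  unfold sm
  rw [Matrix.mul_add, Matrix.add_mul]

theorem sm_smul (S R : Matrix (Fin 2) (Fin 2) ℝ) (c : ℝ) (F : Matrix (Fin 2) (Fin 2) ℝ) :
    sm S R (c • F) = c • sm S R F := by
  unfold sm
  rw [Matrix.mul_smul, Matrix.smul_mul]

theorem sm_inv (S R G : Matrix (Fin 2) (Fin 2) ℝ) (hSu : IsUnit S.det) (hRu : IsUnit R.det) :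
    S * (S⁻¹ * G * R⁻¹) * R = G := by
  rw [Matrix.mul_assoc, Matrix.mul_assoc, Matrix.nonsing_inv_mul R hRu, Matrix.mul_one,
    ← Matrix.mul_assoc, Matrix.mul_nonsing_inv S hSu, Matrix.one_mul]

/-- multiplication of matrices by fixed matrices, as a continuous linear map -/
noncomputable def sand (S R : Matrix (Fin 2) (Fin 2) ℝ) : E →L[ℝ] E :=
  LinearMap.toContinuousLinearMap
    { toFun := fun F => sm S R F
      map_add' := fun F G => sm_add S R F G
      map_smul' := fun c F => sm_smul S R c F }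

theorem sand_apply (S R : Matrix (Fin 2) (Fin 2) ℝ) (F : Matrix (Fin 2) (Fin 2) ℝ) :
    sand S R F = S * F * R := rfl

/-- the transpose of a linear map of the plane -/
noncomputable def tr (T : V →L[ℝ] V) : V →L[ℝ] V :=
  ContinuousLinearMap.pi fun i => LinearMap.toContinuousLinearMap
    { toFun := fun v => dp (T (Pi.single i 1)) v
      map_add' := by
        intro v w
        simp only [dp, Pi.add_apply]
        ring
      map_smul' := by
        intro c v
        simp only [dp, Pi.smul_apply, smul_eq_mul, RingHom.id_apply]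
        ring }

theorem tr_apply (T : V →L[ℝ] V) (v : V) (i : Fin 2) : tr T v i = dp (T (Pi.single i 1)) v := rfl

theorem dp_tr (T : V →L[ℝ] V) (a v : V) : dp (T a) v = dp a (tr T v) := by
  have ha : a = a 0 • (Pi.single 0 1 : V) + a 1 • (Pi.single 1 1 : V) := by
    ext i
    fin_cases i <;> simp
  have h : T a = a 0 • T (Pi.single 0 1) + a 1 • T (Pi.single 1 1) := by
    conv_lhs => rw [ha]
    rw [map_add, map_smul, map_smul]
  rw [h]
  simp only [dp, tr_apply, Pi.add_apply, Pi.smul_apply, smul_eq_mul]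
  ring

/-- Case (K) for a general linear map without rank-one matrices in its kernel. -/
theorem kg : S_NF → S_LC → S_TC → S_K → S_KG := by
  intro hNF hLC hTC hK ψ L m κ hL hrc
  obtain ⟨S, R, T, hS, hR, hT⟩ := hNF L hL
  have hSu : IsUnit S.det := isUnit_iff_ne_zero.2 hS
  have hRu : IsUnit R.det := isUnit_iff_ne_zero.2 hR
  have hSi : (S⁻¹).det ≠ 0 := by
    rw [Matrix.det_nonsing_inv, Ring.inverse_eq_inv']
    exact inv_ne_zero hS
  have hRi : (R⁻¹).det ≠ 0 := by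
    rw [Matrix.det_nonsing_inv, Ring.inverse_eq_inv']
    exact inv_ne_zero hR
  set W : Matrix (Fin 2) (Fin 2) ℝ → ℝ :=
    fun F => ψ (L F) + dp (L F) (m F) + κ * (F 0 0 * F 1 1 - F 0 1 * F 1 0) with hW
  have hdet : ∀ F : Matrix (Fin 2) (Fin 2) ℝ,
      (S⁻¹ * F * R⁻¹) 0 0 * (S⁻¹ * F * R⁻¹) 1 1 - (S⁻¹ * F * R⁻¹) 0 1 * (S⁻¹ * F * R⁻¹) 1 0 =
        ((S⁻¹).det * (R⁻¹).det) * (F 0 0 * F 1 1 - F 0 1 * F 1 0) := by
    intro F
    rw [← Matrix.det_fin_two, ← Matrix.det_fin_two, Matrix.det_mul, Matrix.det_mul]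
    ring
  have hform : ∀ G : Matrix (Fin 2) (Fin 2) ℝ, W (S⁻¹ * G * R⁻¹) =
      (fun y => ψ (T y)) (cf G) + dp (cf G) (((tr T).comp (m.comp (sand S⁻¹ R⁻¹))) G) +
        (κ * ((S⁻¹).det * (R⁻¹).det)) * (G 0 0 * G 1 1 - G 0 1 * G 1 0) := by
    intro G
    have h1 : L (S⁻¹ * G * R⁻¹ : Matrix (Fin 2) (Fin 2) ℝ) = T (cf G) := by
      rw [hT]
      exact congrArg (fun M : Matrix (Fin 2) (Fin 2) ℝ => T (cf M)) (sm_inv S R G hSu hRu)
    show ψ (L (S⁻¹ * G * R⁻¹ : Matrix (Fin 2) (Fin 2) ℝ)) +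
      dp (L (S⁻¹ * G * R⁻¹ : Matrix (Fin 2) (Fin 2) ℝ))
        (m (S⁻¹ * G * R⁻¹ : Matrix (Fin 2) (Fin 2) ℝ)) +
      κ * ((S⁻¹ * G * R⁻¹) 0 0 * (S⁻¹ * G * R⁻¹) 1 1 -
        (S⁻¹ * G * R⁻¹) 0 1 * (S⁻¹ * G * R⁻¹) 1 0) = _
    rw [h1, hdet, dp_tr]
    rw [mul_assoc κ]
    rfl
  have hrc1 : RankOneConvex (fun G => W (S⁻¹ * G * R⁻¹)) := by
    intro F H hH t ht0 ht1
    have hH' : (S⁻¹ * H * R⁻¹).rank = 1 := by
      rw [Matrix.rank_mul_eq_left_of_isUnit_det _ _ (isUnit_iff_ne_zero.2 hRi),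
        Matrix.rank_mul_eq_right_of_isUnit_det _ _ (isUnit_iff_ne_zero.2 hSi)]
      exact hH
    have h := hrc (S⁻¹ * F * R⁻¹) (S⁻¹ * H * R⁻¹) hH' t ht0 ht1
    have e1 : S⁻¹ * ((1 - t) • F + t • (F + H)) * R⁻¹ =
        (1 - t) • (S⁻¹ * F * R⁻¹) + t • (S⁻¹ * F * R⁻¹ + S⁻¹ * H * R⁻¹) := by
      rw [Matrix.mul_add, Matrix.add_mul, Matrix.mul_smul, Matrix.smul_mul, Matrix.mul_smul,
        Matrix.smul_mul, Matrix.mul_add, Matrix.add_mul]
    have e2 : S⁻¹ * (F + H) * R⁻¹ = S⁻¹ * F * R⁻¹ + S⁻¹ * H * R⁻¹ := by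
      rw [Matrix.mul_add, Matrix.add_mul]
    show W (S⁻¹ * ((1 - t) • F + t • (F + H)) * R⁻¹) ≤
      (1 - t) * W (S⁻¹ * F * R⁻¹) + t * W (S⁻¹ * (F + H) * R⁻¹)
    rw [e1, e2]
    exact h
  have hfun : (fun G : Matrix (Fin 2) (Fin 2) ℝ => W (S⁻¹ * G * R⁻¹)) =
      (fun G : Matrix (Fin 2) (Fin 2) ℝ =>
      (fun y => ψ (T y)) (cf G) + dp (cf G) (((tr T).comp (m.comp (sand S⁻¹ R⁻¹))) G) +
        (κ * ((S⁻¹).det * (R⁻¹).det)) * (G 0 0 * G 1 1 - G 0 1 * G 1 0)) := by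
    funext G
    exact hform G
  have hq1 : Quasiconvex (fun G : Matrix (Fin 2) (Fin 2) ℝ => W (S⁻¹ * G * R⁻¹)) := by
    rw [hfun]
    rw [hfun] at hrc1
    exact hK (fun y => ψ (T y)) ((tr T).comp (m.comp (sand S⁻¹ R⁻¹)))
      (κ * ((S⁻¹).det * (R⁻¹).det)) hrc1
  have hq2 : Quasiconvex (fun G => W (S⁻¹ * G)) := by
    apply hLC (fun G => W (S⁻¹ * G)) R⁻¹ hRi
    have e : (fun F : Matrix (Fin 2) (Fin 2) ℝ => W (S⁻¹ * (F * R⁻¹))) =
        (fun G => W (S⁻¹ * G * R⁻¹)) := by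
      funext F
      rw [Matrix.mul_assoc]
    show Quasiconvex (fun F : Matrix (Fin 2) (Fin 2) ℝ => W (S⁻¹ * (F * R⁻¹)))
    rw [e]
    exact hq1
  exact hTC W S⁻¹ hSi hq2

end Q144.MD
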